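/-
MP_72c0ec_gt (Santalo's shadow perimeter inequality), helper9.
The regular tetrahedra are strict local maxima: the inequality, with the exact equality case, for all
compact convex sets near a regular tetrahedron.
-/
import Pool.Agent.H.MP_72c0ec_gt.Loc.Main

set_option autoImplicit false

namespace Pool.Agent.Results.MP_72c0ec_gt.LocalMaximum

open San SanSym

theorem result (V : Fin 4 → E3) (l : ℝ) (hl : 0 < l) (hregular : ∀ i j, i ≠ j → dist (V i) (V j) = l)
    (K : Set E3) (hcompact : IsCompact K) (hconvex : Convex ℝ K) (hnonempty : K.Nonempty)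
    (hclose : Metric.hausdorffDist K (convexHull ℝ (Set.range V)) < l / 10 ^ 14) :
    minShadow K ^ 2 ≤ (2 + 4 / √3) * cauchyArea K ∧
      (minShadow K ^ 2 = (2 + 4 / √3) * cauchyArea K ↔
        ∃ (W : Fin 4 → E3) (s : ℝ), 0 < s ∧ (∀ i j, i ≠ j → dist (W i) (W j) = s) ∧
          K = convexHull ℝ (Set.range W)) :=
  SanLoc.local_max hcompact hconvex hnonempty hl hregular hclose

end Pool.Agent.Results.MP_72c0ec_gt.LocalMaximum
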