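/-
MP_72c0ec_gt (Santalo's shadow perimeter inequality), helper9.
The inequality, strict, for all convex bodies of revolution.
-/
import Pool.Agent.H.MP_72c0ec_gt.Sym.Rev2

set_option autoImplicit false

namespace Pool.Agent.Results.MP_72c0ec_gt.Revolution

open San SanSym

theorem result (K : Set E3) (hcompact : IsCompact K) (hconvex : Convex ℝ K)
    (hinterior : (interior K).Nonempty) (p e : E3) (haxis : ‖e‖ = 1)
    (hrevolution : ∀ x ∈ K, ∀ y : E3, inner ℝ (y - p) e = (inner ℝ (x - p) e : ℝ) →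
      ‖y - p‖ = ‖x - p‖ → y ∈ K) :
    minShadow K ^ 2 ≤ 4 * cauchyArea K ∧
      minShadow K ^ 2 < (2 + 4 / √3) * cauchyArea K := by
  obtain ⟨h1, h2⟩ := rev_result hcompact hconvex hinterior haxis hrevolution
  rw [← cauchyArea_eq] at h1 h2
  refine ⟨h1, lt_of_le_of_lt h1 ?_⟩
  refine mul_lt_mul_of_pos_right ?_ h2
  have hs : √(3:ℝ) < 2 := by
    rw [Real.sqrt_lt' (by norm_num)]
    norm_num
  have hs0 : 0 < √(3:ℝ) := Real.sqrt_pos.2 (by norm_num)
  have h4 : (2 : ℝ) < 4 / √3 := by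
    rw [lt_div_iff₀ hs0]
    linarith
  linarith

end Pool.Agent.Results.MP_72c0ec_gt.Revolution
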