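/-
MP_72c0ec_gt (Santalo's shadow perimeter inequality), helper94.
The full conjecture, including the equality case, for all tetrahedra.
-/
import Pool.Agent.H.MP_72c0ec_gt.Final

set_option autoImplicit false

namespace Pool.Agent.Results.MP_72c0ec_gt.Tetrahedra

open San

theorem result (A B C D : E3) (h : AffineIndependent ℝ ![A, B, C, D]) :
    minShadow (convexHull ℝ {A, B, C, D}) ^ 2 ≤ (2 + 4 / √3) *
      (triArea A B C + triArea A B D + triArea A C D + triArea B C D) ∧
    (minShadow (convexHull ℝ {A, B, C, D}) ^ 2 = (2 + 4 / √3) *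
      (triArea A B C + triArea A B D + triArea A C D + triArea B C D) ↔
      dist A B = dist A C ∧ dist A B = dist A D ∧ dist A B = dist B C ∧ dist A B = dist B D ∧
        dist A B = dist C D) := by
  have hr0 : 0 < √(3:ℝ) := Real.sqrt_pos.2 (by norm_num)
  have hr : √(3:ℝ) ^ 2 = 3 := Real.sq_sqrt (by norm_num)
  obtain ⟨r, hrr⟩ : ∃ r, r = √(3:ℝ) := ⟨_, rfl⟩
  rw [← hrr] at hr0 hr ⊢
  obtain ⟨hr1, hr2⟩ := r_bounds r hr0 hr
  have hk : (2 * r - 3) * (2 + 4 / r) = 2 := by
    field_simp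
    have : (2 * r - 3) * (r * 2 + 4) = 4 * r ^ 2 + 2 * r - 12 := by ring
    nlinarith
  have hk0 : 0 < 2 * r - 3 := by linarith
  obtain ⟨e₁, e₂, k1, k2, k3⟩ := upper_all A B C D r hr0 hr h
  have hle := minShadow_le A B C D e₁ e₂ k1
  have hnn := minShadow_nonneg A B C D
  have hsq : minShadow (convexHull ℝ {A, B, C, D}) ^ 2 ≤
      shadowPerimeter (convexHull ℝ {A, B, C, D}) e₁ e₂ ^ 2 := pow_le_pow_left₀ hnn hle 2
  have hS : triArea A B C + triArea A B D + triArea A C D + triArea B C D = faces A B C D := rfl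
  rw [hS]
  obtain ⟨m, hm⟩ : ∃ m, m = minShadow (convexHull ℝ {A, B, C, D}) := ⟨_, rfl⟩
  obtain ⟨L, hL⟩ : ∃ L, L = shadowPerimeter (convexHull ℝ {A, B, C, D}) e₁ e₂ := ⟨_, rfl⟩
  rw [← hm] at hle hnn hsq ⊢
  rw [← hL] at hle hsq k2 k3
  have hfac : (2 + 4 / r) * faces A B C D * (2 * r - 3) = 2 * faces A B C D := by
    calc (2 + 4 / r) * faces A B C D * (2 * r - 3) = ((2 * r - 3) * (2 + 4 / r)) * faces A B C D := by
          ring
      _ = 2 * faces A B C D := by rw [hk]
  have hmain : m ^ 2 ≤ (2 + 4 / r) * faces A B C D := by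
    have h1 : m ^ 2 * (2 * r - 3) ≤ (2 + 4 / r) * faces A B C D * (2 * r - 3) := by
      rw [hfac]
      have := mul_le_mul_of_nonneg_right hsq hk0.le
      linarith
    exact le_of_mul_le_mul_right h1 hk0
  refine ⟨hmain, fun heq => ?_, fun hreg => ?_⟩
  · have h1 : (2 * r - 3) * L ^ 2 = 2 * faces A B C D := by
      refine le_antisymm k2 ?_
      rw [← hfac, ← heq]
      have := mul_le_mul_of_nonneg_right hsq hk0.le
      linarith
    obtain ⟨l, m1, m2, m3, m4, m5, m6⟩ := k3 h1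
    have d1 : dist A B = l := by rw [dist_eq_norm, norm_sub_rev, m1]
    have d2 : dist A C = l := by rw [dist_eq_norm, norm_sub_rev, m2]
    have d3 : dist A D = l := by rw [dist_eq_norm, norm_sub_rev, m3]
    have d4 : dist B C = l := by rw [dist_eq_norm, norm_sub_rev, m4]
    have d5 : dist B D = l := by rw [dist_eq_norm, norm_sub_rev, m5]
    have d6 : dist C D = l := by rw [dist_eq_norm, m6]
    exact ⟨by rw [d1, d2], by rw [d1, d3], by rw [d1, d4], by rw [d1, d5], by rw [d1, d6]⟩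
  · obtain ⟨q2, q3, q4, q5, q6⟩ := hreg
    obtain ⟨l, hl⟩ : ∃ l, l = dist A B := ⟨_, rfl⟩
    rw [← hl] at q2 q3 q4 q5 q6
    have hinj := h.injective
    have nAB : A ≠ B := fun e => absurd (hinj (a₁ := 0) (a₂ := 1) e) (by decide)
    have hl0 : 0 < l := by rw [hl]; exact dist_pos.2 nAB
    rw [dist_eq_norm] at hl q2 q3 q4 q5 q6
    have hS2 : faces A B C D = r * l ^ 2 := by
      have a1 : triArea A B C = r * l ^ 2 / 4 := triArea_eq r l hr0 hr A B C
        (by rw [norm_sub_rev, hl]) (by rw [norm_sub_rev, q2]) (by rw [q4])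
      have a2 : triArea A B D = r * l ^ 2 / 4 := triArea_eq r l hr0 hr A B D
        (by rw [norm_sub_rev, hl]) (by rw [norm_sub_rev, q3]) (by rw [q5])
      have a3 : triArea A C D = r * l ^ 2 / 4 := triArea_eq r l hr0 hr A C D
        (by rw [norm_sub_rev, q2]) (by rw [norm_sub_rev, q3]) (by rw [q6])
      have a4 : triArea B C D = r * l ^ 2 / 4 := triArea_eq r l hr0 hr B C D
        (by rw [norm_sub_rev, q4]) (by rw [norm_sub_rev, q5]) (by rw [q6])
      rw [faces, a1, a2, a3, a4]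
      ring
    have hlow : (1 + r) * l ≤ m := by
      rw [hm]
      refine le_csInf ⟨_, e₁, e₂, k1, rfl⟩ ?_
      rintro x ⟨f₁, f₂, hf, rfl⟩
      exact lower r l hr0 hr hl0 A B C D f₁ f₂ hf hl.symm q2.symm q3.symm q4.symm q5.symm q6.symm
    refine le_antisymm hmain ?_
    have h1 : ((1 + r) * l) ^ 2 ≤ m ^ 2 := pow_le_pow_left₀ (by positivity) hlow 2
    have h2 : (2 + 4 / r) * (r * l ^ 2) = ((1 + r) * l) ^ 2 := by
      have e1 : (2 + 4 / r) * (r * l ^ 2) = (2 * r + 4) * l ^ 2 := by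
        field_simp
      have e2 : ((1 + r) * l) ^ 2 = (1 + 2 * r + r ^ 2) * l ^ 2 := by ring
      rw [e1, e2, hr]
      ring
    rw [hS2, h2]
    exact h1

end Pool.Agent.Results.MP_72c0ec_gt.Tetrahedra
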